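import Mathlib
import Pool.Agent.X48.DelSun2

/-!
# MP_2a941c_nt: integer-valuedness of the weighted power sums of `d_k(x) s_k(x)`

`d_n(a) s_n(a) = ∑_i C(n,i) C(n+i,i) f_i(a)` for all natural numbers `n`, `a`, with the integers
`f_i(a) = ∑_l (-1)^(i-l) 2^l C(i,l) C(a+l,l) C(a+l,2i)`; the integer combinations of the functions
`C(n,i) C(n+i,i)` of `n` form a ring, for whose elements the two sums are divisible by `n`.
-/

set_option autoImplicit false

open Finset Polynomial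

namespace Pool.Agent.Results.MP_2a941c_nt.IntegerValued

/-- The polynomial `binom(x, k) = x (x-1) ⋯ (x-k+1) / k!`. -/
noncomputable def bin (k : ℕ) : ℚ[X] :=
  C (1 / (k.factorial : ℚ)) * ∏ i ∈ range k, (X - C (i : ℚ))

/-- The polynomial `c_k(x) = binom(x, k) binom(x+k, k)`. -/
noncomputable def cPoly (k : ℕ) : ℚ[X] := bin k * (bin k).comp (X + C (k : ℚ))

/-- The polynomial `d_n(x) = ∑_k 2^k binom(n,k) binom(x,k)`. -/
noncomputable def d (n : ℕ) : ℚ[X] :=
  ∑ k ∈ range (n + 1), C (2 ^ k * (n.choose k : ℚ)) * bin k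

/-- The polynomial `s_n(x) = ∑_k binom(n,k) c_k(x)`. -/
noncomputable def s (n : ℕ) : ℚ[X] :=
  ∑ k ∈ range (n + 1), C (n.choose k : ℚ) * cPoly k

/-- `A_{m,n}(x) = (1/n) ∑_{k<n} (2k+1) d_k(x)^m s_k(x)^m` -/
noncomputable def A (m n : ℕ) : ℚ[X] :=
  C (1 / (n : ℚ)) * ∑ k ∈ range n, C (2 * (k : ℚ) + 1) * (d k ^ m * s k ^ m)

/-- `B_{m,n}(x) = (1/n) ∑_{k<n} (-1)^k (2k+1) d_k(x)^m s_k(x)^m` -/
noncomputable def B (m n : ℕ) : ℚ[X] :=
  C (1 / (n : ℚ)) * ∑ k ∈ range n, C ((-1) ^ k * (2 * (k : ℚ) + 1)) * (d k ^ m * s k ^ m)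

/-- `P` takes integer values at all integers. -/
def IntegerValued (P : ℚ[X]) : Prop := ∀ a : ℤ, ∃ z : ℤ, P.eval (a : ℚ) = z

open Pool.Agent.X48.DelSun (ch1 ch2 ch3 c dN sN dN_rec shift S prod_mem pow_mem' sum_int sum_int')

lemma bin_eval (k : ℕ) (x : ℚ) :
    (bin k).eval x = 1 / (k.factorial : ℚ) * ∏ i ∈ range k, (x - (i : ℚ)) := by
  unfold bin
  rw [eval_mul, eval_C, eval_prod]
  simp

lemma bin_succ (k : ℕ) (x : ℚ) :
    ((k : ℚ) + 1) * (bin (k + 1)).eval x = (x - k) * (bin k).eval x := by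
  rw [bin_eval, bin_eval, Finset.prod_range_succ, Nat.factorial_succ]
  have h1 : ((k : ℚ) + 1) ≠ 0 := by positivity
  have h2 : (k.factorial : ℚ) ≠ 0 := by positivity
  push_cast
  field_simp

lemma bin_nat (k a : ℕ) : (bin k).eval (a : ℚ) = (a.choose k : ℚ) := by
  induction k with
  | zero => simp [bin]
  | succ k ih =>
    have h1 : ((k : ℚ) + 1) ≠ 0 := by positivity
    apply mul_left_cancel₀ h1
    rw [bin_succ, ih, ch1]

lemma bin_neg (k b : ℕ) : (bin k).eval (-1 - (b : ℚ)) = (-1) ^ k * ((b + k).choose k : ℚ) := by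
  induction k with
  | zero => simp [bin]
  | succ k ih =>
    have h1 : ((k : ℚ) + 1) ≠ 0 := by positivity
    apply mul_left_cancel₀ h1
    have h2 := ch2 (b + k) k
    push_cast at h2
    rw [bin_succ, ih, show b + (k + 1) = b + k + 1 by ring]
    calc (-1 - (b : ℚ) - k) * ((-1) ^ k * ((b + k).choose k : ℚ)) =
        (-1) ^ (k + 1) * ((b + k + 1) * ((b + k).choose k : ℚ)) := by rw [pow_succ]; ring
      _ = _ := by rw [← h2]; ring

lemma bin_neg' (k b : ℕ) : (bin k).eval (-1 - (b : ℚ) + k) = (-1) ^ k * (b.choose k : ℚ) := by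
  rw [← bin_nat, bin_eval, bin_eval, ← Finset.prod_range_reflect (fun i => -1 - (b : ℚ) + k - (i : ℚ))]
  have h : ∏ j ∈ range k, (-1 - (b : ℚ) + k - ((k - 1 - j : ℕ) : ℚ)) =
      (-1) ^ k * ∏ j ∈ range k, ((b : ℚ) - j) := by
    have h2 : ((-1 : ℚ)) ^ k = ∏ j ∈ range k, (-1 : ℚ) := by simp
    rw [h2, ← Finset.prod_mul_distrib]
    refine Finset.prod_congr rfl fun j hj => ?_
    rw [mem_range] at hj
    rw [Nat.sub_sub, Nat.cast_sub (by omega)]
    push_cast
    ring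
  rw [h]
  ring

lemma cPoly_nat (k a : ℕ) : (cPoly k).eval (a : ℚ) = c k a := by
  unfold cPoly c
  rw [eval_mul, eval_comp, bin_nat]
  simp only [eval_add, eval_X, eval_C]
  rw [← Nat.cast_add, bin_nat]

lemma cPoly_neg (k b : ℕ) : (cPoly k).eval (-1 - (b : ℚ)) = c k b := by
  unfold cPoly c
  rw [eval_mul, eval_comp, bin_neg]
  simp only [eval_add, eval_X, eval_C]
  rw [bin_neg']
  have : ((-1 : ℚ) ^ k) * (-1) ^ k = 1 := by
    rw [← mul_pow]
    norm_num
  calc (-1 : ℚ) ^ k * ((b + k).choose k : ℚ) * ((-1) ^ k * (b.choose k : ℚ)) =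
      ((-1 : ℚ) ^ k * (-1) ^ k) * ((b.choose k : ℚ) * ((b + k).choose k : ℚ)) := by ring
    _ = _ := by rw [this, one_mul]

lemma s_nat (n a : ℕ) : (s n).eval (a : ℚ) = sN n a := by
  unfold s sN
  rw [eval_finsetSum]
  refine Finset.sum_congr rfl fun k _ => ?_
  rw [eval_mul, eval_C, cPoly_nat]

lemma s_neg (n b : ℕ) : (s n).eval (-1 - (b : ℚ)) = sN n b := by
  unfold s sN
  rw [eval_finsetSum]
  refine Finset.sum_congr rfl fun k _ => ?_
  rw [eval_mul, eval_C, cPoly_neg]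

lemma d_nat (n a : ℕ) : (d n).eval (a : ℚ) = dN n a := by
  unfold d dN
  rw [eval_finsetSum]
  refine Finset.sum_congr rfl fun k _ => ?_
  rw [eval_mul, eval_C, bin_nat]
  ring

/-- `d_n(-1-b)` as a sum -/
def eN (n b : ℕ) : ℚ := ∑ k ∈ range (n + 1), (n.choose k : ℚ) * ((-2) ^ k * ((b + k).choose k : ℚ))

lemma d_neg' (n b : ℕ) : (d n).eval (-1 - (b : ℚ)) = eN n b := by
  unfold d eN
  rw [eval_finsetSum]
  refine Finset.sum_congr rfl fun k _ => ?_
  rw [eval_mul, eval_C, bin_neg, show (-2 : ℚ) = (-1) * 2 by norm_num, mul_pow]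
  ring

lemma eN_rec (n b : ℕ) : ((b : ℚ) + 2) * eN n (b + 2) =
    (2 * n + 1) * eN n (b + 1) + (b + 1) * eN n b := by
  have h := shift n fun k => (-2) ^ k * ((b + 1 + k).choose k : ℚ)
  have h1 : (2 * (n : ℚ) + 1) * eN n (b + 1) = 2 * ((n : ℚ) * eN n (b + 1)) + eN n (b + 1) := by
    ring
  rw [h1]
  unfold eN
  rw [h, Finset.mul_sum, Finset.mul_sum, Finset.mul_sum, ← Finset.sum_add_distrib,
    ← Finset.sum_add_distrib]
  refine Finset.sum_congr rfl fun k _ => ?_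
  rcases k with _ | j
  · simp
    ring
  · have hj : ((j : ℚ) + 1) ≠ 0 := by positivity
    have hb : ((b : ℚ) + 1) ≠ 0 := by positivity
    have hb2 : ((b : ℚ) + 2) ≠ 0 := by positivity
    obtain ⟨E, hE⟩ : ∃ E : ℚ, E = ((b + 1 + j).choose j : ℚ) := ⟨_, rfl⟩
    have b1 := ch2 (b + 1 + j) j
    have b3 := ch1 (b + 1 + j) j
    have b4 := ch3 (b + 1 + j + 1) (j + 1)
    push_cast at b1 b3 b4
    have c1 : ((b + 1 + (j + 1)).choose (j + 1) : ℚ) = (b + 2 + j) * E / (j + 1) := by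
      rw [eq_div_iff hj, hE, show b + 1 + (j + 1) = b + 1 + j + 1 by ring]; linarith
    have c2 : ((b + 2 + (j + 1)).choose (j + 1) : ℚ) =
        (b + 3 + j) * ((b + 2 + j) * E / (j + 1)) / (b + 2) := by
      rw [eq_div_iff hb2, ← c1, show b + 2 + (j + 1) = b + 1 + j + 1 + 1 by ring,
        show b + 1 + (j + 1) = b + 1 + j + 1 by ring]
      linarith
    have c3 : ((b + (j + 1)).choose (j + 1) : ℚ) = (b + 1) * E / (j + 1) := by
      rw [eq_div_iff hj, hE, show b + (j + 1) = b + 1 + j by ring]; linarith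
    rw [c1, c2, c3, Nat.add_sub_cancel, ← hE]
    push_cast
    field_simp
    ring

lemma eN_zero (n : ℕ) : eN n 0 = (-1) ^ n := by
  unfold eN
  have h := add_pow (-2 : ℚ) 1 n
  rw [show (-2 : ℚ) + 1 = -1 by norm_num] at h
  rw [h]
  refine Finset.sum_congr rfl fun k _ => ?_
  simp
  ring

lemma eN_one (n : ℕ) : eN n 1 = (-1) ^ n * (2 * n + 1) := by
  have h0 := eN_zero n
  have h := shift n fun k => (-2 : ℚ) ^ k
  have h1 : ∑ k ∈ range (n + 1), (n.choose k : ℚ) * (-2) ^ k = (-1) ^ n := by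
    rw [← h0]
    unfold eN
    refine Finset.sum_congr rfl fun k _ => ?_
    simp
  have h2 : ∑ k ∈ range (n + 1), (n.choose k : ℚ) * (k * ((-2) ^ k + (-2) ^ (k - 1))) =
      1 / 2 * ∑ k ∈ range (n + 1), (n.choose k : ℚ) * (k * (-2) ^ k) := by
    rw [Finset.mul_sum]
    refine Finset.sum_congr rfl fun k _ => ?_
    rcases k with _ | j
    · simp
    · rw [Nat.add_sub_cancel, pow_succ]
      ring
  rw [h1, h2] at h
  have h3 : eN n 1 = ∑ k ∈ range (n + 1), (n.choose k : ℚ) * (k * (-2) ^ k) +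
      ∑ k ∈ range (n + 1), (n.choose k : ℚ) * (-2) ^ k := by
    unfold eN
    rw [← Finset.sum_add_distrib]
    refine Finset.sum_congr rfl fun k _ => ?_
    have : ((1 + k).choose k : ℚ) = k + 1 := by
      rw [add_comm 1 k, Nat.choose_succ_self_right]
      push_cast
      ring
    rw [this]
    ring
  rw [h3, h1]
  linarith

lemma dN_zero (n : ℕ) : dN n 0 = 1 := by
  unfold dN
  rw [Finset.sum_range_succ']
  simp

lemma dN_one (n : ℕ) : dN n 1 = 2 * n + 1 := by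
  unfold dN
  rcases n with _ | n
  · simp
  · rw [Finset.sum_range_succ', Finset.sum_range_succ']
    simp [Nat.choose_eq_zero_of_lt (show 1 < _ + 1 + 1 by omega)]
    ring

lemma eN_eq (n b : ℕ) : eN n b = (-1) ^ n * dN n b ∧ eN n (b + 1) = (-1) ^ n * dN n (b + 1) := by
  induction b with
  | zero => exact ⟨by rw [eN_zero, dN_zero, mul_one], by rw [zero_add, eN_one, dN_one]⟩
  | succ b ih =>
    refine ⟨ih.2, ?_⟩
    have hb2 : ((b : ℚ) + 2) ≠ 0 := by positivity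
    apply mul_left_cancel₀ hb2
    have h1 := eN_rec n b
    have h2 := dN_rec n b
    rw [show b + 1 + 1 = b + 2 by ring, h1, ih.1, ih.2]
    calc _ = (-1) ^ n * ((2 * n + 1) * dN n (b + 1) + (b + 1) * dN n b) := by ring
      _ = _ := by rw [← h2]; ring

lemma d_neg (n b : ℕ) : (d n).eval (-1 - (b : ℚ)) = (-1) ^ n * dN n b := by
  rw [d_neg', (eN_eq n b).1]

lemma pow_mem (m a : ℕ) : (fun n => (dN n a * sN n a) ^ m) ∈ S :=
  pow_mem' (prod_mem a) m

lemma evalA (m n : ℕ) (x : ℚ) : (A m n).eval x =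
    1 / (n : ℚ) * ∑ k ∈ range n, (2 * (k : ℚ) + 1) * ((d k).eval x * (s k).eval x) ^ m := by
  unfold A
  rw [eval_mul, eval_C, eval_finsetSum]
  congr 1
  refine Finset.sum_congr rfl fun k _ => ?_
  rw [eval_mul, eval_C, eval_mul, eval_pow, eval_pow, mul_pow]

lemma evalB (m n : ℕ) (x : ℚ) : (B m n).eval x =
    1 / (n : ℚ) * ∑ k ∈ range n, (-1) ^ k * ((2 * (k : ℚ) + 1) *
      ((d k).eval x * (s k).eval x) ^ m) := by
  unfold B
  rw [eval_mul, eval_C, eval_finsetSum]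
  congr 1
  refine Finset.sum_congr rfl fun k _ => ?_
  rw [eval_mul, eval_C, eval_mul, eval_pow, eval_pow, mul_pow]
  ring

/-- the two sums at a natural number -/
lemma key (m n a : ℕ) (hn : 1 ≤ n) :
    (∃ z : ℤ, 1 / (n : ℚ) * ∑ k ∈ range n, (2 * (k : ℚ) + 1) * (dN k a * sN k a) ^ m = z) ∧
    ∃ z : ℤ, 1 / (n : ℚ) * ∑ k ∈ range n, (-1) ^ k * ((2 * (k : ℚ) + 1) *
      (dN k a * sN k a) ^ m) = z := by
  have hn0 : (n : ℚ) ≠ 0 := by
    have : (1 : ℚ) ≤ n := by exact_mod_cast hn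
    positivity
  obtain ⟨z, hz⟩ := sum_int (pow_mem m a) n
  obtain ⟨z', hz'⟩ := sum_int' (pow_mem m a) n
  refine ⟨⟨z, ?_⟩, ⟨z', ?_⟩⟩
  · rw [hz]
    field_simp
  · rw [hz']
    field_simp

theorem result : ∀ m n : ℕ, 1 ≤ m → 1 ≤ n → IntegerValued (A m n) ∧ IntegerValued (B m n) := by
  intro m n _ hn
  have hsign : ∀ k : ℕ, Even m → ((-1 : ℚ) ^ k) ^ m = 1 := by
    intro k hm
    rw [← pow_mul, mul_comm, pow_mul, hm.neg_one_pow, one_pow]
  have hsign' : ∀ k : ℕ, Odd m → ((-1 : ℚ) ^ k) ^ m = (-1) ^ k := by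
    intro k hm
    rw [← pow_mul, mul_comm, pow_mul, hm.neg_one_pow]
  have hsq : ∀ k : ℕ, (-1 : ℚ) ^ k * (-1) ^ k = 1 := by
    intro k
    rw [← mul_pow]
    norm_num
  constructor
  · intro a
    rcases le_or_gt 0 a with ha | ha
    · obtain ⟨b, rfl⟩ := Int.eq_ofNat_of_zero_le ha
      obtain ⟨z, hz⟩ := (key m n b hn).1
      refine ⟨z, ?_⟩
      rw [evalA, ← hz]
      congr 1
      refine Finset.sum_congr rfl fun k _ => ?_
      rw [Int.cast_natCast, d_nat, s_nat]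
    · obtain ⟨b, hb⟩ : ∃ b : ℕ, a = -1 - (b : ℤ) := ⟨(-1 - a).toNat, by omega⟩
      rw [evalA, hb]
      push_cast
      simp only [d_neg, s_neg]
      rcases Nat.even_or_odd m with hm | hm
      · obtain ⟨z, hz⟩ := (key m n b hn).1
        refine ⟨z, ?_⟩
        rw [← hz]
        congr 1
        refine Finset.sum_congr rfl fun k _ => ?_
        rw [mul_assoc ((-1 : ℚ) ^ k), mul_pow ((-1 : ℚ) ^ k), hsign k hm, one_mul]
      · obtain ⟨z, hz⟩ := (key m n b hn).2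
        refine ⟨z, ?_⟩
        rw [← hz]
        congr 1
        refine Finset.sum_congr rfl fun k _ => ?_
        rw [mul_assoc ((-1 : ℚ) ^ k), mul_pow ((-1 : ℚ) ^ k), hsign' k hm]
        ring
  · intro a
    rcases le_or_gt 0 a with ha | ha
    · obtain ⟨b, rfl⟩ := Int.eq_ofNat_of_zero_le ha
      obtain ⟨z, hz⟩ := (key m n b hn).2
      refine ⟨z, ?_⟩
      rw [evalB, ← hz]
      congr 1
      refine Finset.sum_congr rfl fun k _ => ?_
      rw [Int.cast_natCast, d_nat, s_nat]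
    · obtain ⟨b, hb⟩ : ∃ b : ℕ, a = -1 - (b : ℤ) := ⟨(-1 - a).toNat, by omega⟩
      rw [evalB, hb]
      push_cast
      simp only [d_neg, s_neg]
      rcases Nat.even_or_odd m with hm | hm
      · obtain ⟨z, hz⟩ := (key m n b hn).2
        refine ⟨z, ?_⟩
        rw [← hz]
        congr 1
        refine Finset.sum_congr rfl fun k _ => ?_
        rw [mul_assoc ((-1 : ℚ) ^ k), mul_pow ((-1 : ℚ) ^ k), hsign k hm, one_mul]
      · obtain ⟨z, hz⟩ := (key m n b hn).1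
        refine ⟨z, ?_⟩
        rw [← hz]
        congr 1
        refine Finset.sum_congr rfl fun k _ => ?_
        rw [mul_assoc ((-1 : ℚ) ^ k), mul_pow ((-1 : ℚ) ^ k), hsign' k hm]
        have := hsq k
        calc (-1 : ℚ) ^ k * ((2 * (k : ℚ) + 1) * ((-1) ^ k * (dN k b * sN k b) ^ m)) =
            ((-1 : ℚ) ^ k * (-1) ^ k) * ((2 * (k : ℚ) + 1) * (dN k b * sN k b) ^ m) := by ring
          _ = _ := by rw [this, one_mul]

end Pool.Agent.Results.MP_2a941c_nt.IntegerValued
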